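import Pool.Agent.MP_1246c0_nt.H12.SpecN

/-! Tuples and sets. -/

namespace Pool.Agent.MP_1246c0_nt.H12

open Finset

namespace CFG

open Classical in
theorem ts_eq (m T : ℕ) (w w' : ℕ → ℝ) (Ψ : (Fin m → ℕ) → ℕ → ℝ) :
    TS m T w w' Ψ = ∑ p ∈ Fintype.piFinset fun _ : Fin m => range (T + 1),
      ∑ P ∈ range (T + 1), if p.Injective ∧ (∀ i, p i ≠ P) ∧ (∏ i, p i) * P ≤ T then
        (∏ i, w (p i)) * w' P * Ψ p P else 0 := by
  rw [TS, TS0, ← sum_product']
  refine sum_nbij' (fun q => (fun i => q (some i), q none)) (fun x i => i.elim x.2 x.1)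
    (fun q hq => ?_) (fun x hx => ?_) (fun q _ => ?_) (fun x _ => rfl) fun q _ => ?_
  · have := Fintype.mem_piFinset.1 hq
    exact mem_product.2 ⟨Fintype.mem_piFinset.2 fun i => this _, this _⟩
  · obtain ⟨h1, h2⟩ := mem_product.1 hx
    refine Fintype.mem_piFinset.2 ?_
    rintro (_ | i)
    exacts [h2, Fintype.mem_piFinset.1 h1 i]
  · funext i
    cases i <;> rfl
  · refine if_congr ?_ ?_ rfl
    · rw [Option.injective_iff, Fintype.prod_option, mul_comm, and_assoc]
      simp only [Set.mem_range, not_exists, Function.comp_def]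
    · rw [Fintype.prod_option]
      exact congrArg (· * _) (mul_comm _ _)

open Classical in
theorem card_fib {m : ℕ} {U B : Finset ℕ} (hB : B ∈ powersetCard m U) :
    (((Fintype.piFinset fun _ : Fin m => U).filter Function.Injective).filter
      fun p => univ.image p = B).card = m.factorial := by
  obtain ⟨h1, h2⟩ := mem_powersetCard.1 hB
  have e : (univ : Finset (Fin m ↪ B)).card = m.factorial := by
    rw [card_univ, Fintype.card_embedding_eq, Fintype.card_coe, h2, Fintype.card_fin,
      Nat.descFactorial_self]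
  rw [← e]
  symm
  refine card_bij (fun f _ i => (f i : ℕ)) (fun f _ => ?_) (fun f _ g _ h => ?_) fun p hp => ?_
  · have hi : Function.Injective fun i => (f i : ℕ) := Subtype.val_injective.comp f.injective
    refine mem_filter.2 ⟨mem_filter.2 ⟨Fintype.mem_piFinset.2 fun i => h1 (f i).2, hi⟩, ?_⟩
    refine eq_of_subset_of_card_le (image_subset_iff.2 fun i _ => (f i).2) ?_
    rw [card_image_of_injective _ hi, card_univ, Fintype.card_fin, h2]
  · exact Function.Embedding.ext fun i => Subtype.ext (congrFun h i)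
  · obtain ⟨h3, h4⟩ := mem_filter.1 hp
    exact ⟨⟨fun i => ⟨p i, h4 ▸ mem_image_of_mem p (mem_univ i)⟩,
      fun i j h => (mem_filter.1 h3).2 (congrArg Subtype.val h)⟩, mem_univ _, rfl⟩

theorem tsb (m T : ℕ) (w w' : ℕ → ℝ) (Ψ : Finset ℕ → ℕ → ℝ) :
    TS m T w w' (fun p P => Ψ (univ.image p) P) = m.factorial *
      ∑ B ∈ powersetCard m (range (T + 1)), ∑ P ∈ range (T + 1),
        if P ∉ B ∧ (∏ p ∈ B, p) * P ≤ T then (∏ p ∈ B, w p) * w' P * Ψ B P else 0 := by
  classical
  set G : Finset ℕ → ℝ := fun B => ∑ P ∈ range (T + 1),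
    if P ∉ B ∧ (∏ p ∈ B, p) * P ≤ T then (∏ p ∈ B, w p) * w' P * Ψ B P else 0 with hG
  have h1 : TS m T w w' (fun p P => Ψ (univ.image p) P) =
      ∑ p ∈ (Fintype.piFinset fun _ : Fin m => range (T + 1)).filter Function.Injective,
        G (univ.image p) := by
    rw [ts_eq, sum_filter]
    refine sum_congr rfl fun p _ => ?_
    split_ifs with hp
    · refine sum_congr rfl fun P _ => ?_
      rw [prod_image fun a _ b _ e => hp e, prod_image fun a _ b _ e => hp e]
      exact if_congr (by simp [hp]) rfl rfl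
    · exact sum_eq_zero fun P _ => if_neg fun h => hp h.1
  rw [h1, ← sum_fiberwise_of_maps_to (t := powersetCard m (range (T + 1)))
    (g := fun p => univ.image p), mul_sum]
  · refine sum_congr rfl fun B hB => ?_
    rw [sum_congr rfl (g := fun _ => G B) fun p hp => by rw [(mem_filter.1 hp).2], sum_const,
      nsmul_eq_mul]
    congr 2
    convert card_fib hB
  · intro p hp
    obtain ⟨h2, h3⟩ := mem_filter.1 hp
    exact mem_powersetCard.2 ⟨image_subset_iff.2 fun i _ => Fintype.mem_piFinset.1 h2 i,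
      by rw [card_image_of_injective _ h3, card_univ, Fintype.card_fin]⟩

variable {Sg : Finset ℕ} {m : ℕ} {p : Fin m → ℕ}

theorem inj (hp : p.Injective) (h : ∀ i, p i ∉ Sg) : (prs Sg p).Injective := by
  rintro (a | a) (b | b) e
  · exact congrArg _ (Subtype.ext e)
  · exact absurd (show p b ∈ Sg from (show (a : ℕ) = p b from e) ▸ a.2) (h b)
  · exact absurd (show p a ∈ Sg from (show p a = (b : ℕ) from e) ▸ b.2) (h a)
  · exact congrArg _ (hp e)

theorem inr_mem (i : Fin m) : Sum.inr i ∈ BB Sg m := by simp [BB]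

theorem inl_notMem (s : Sg) : Sum.inl s ∉ BB Sg m := by simp [BB]

theorem img_BB : (BB Sg m).image (prs Sg p) = univ.image p := by
  ext x
  simp [BB, prs]

theorem img_univ : univ.image (prs Sg p) = Sg ∪ univ.image p := by
  ext x
  simp [prs]

theorem img_compl : (BB Sg m)ᶜ.image (prs Sg p) = Sg := by
  ext x
  simp [BB, prs]

end CFG

open CFG in
theorem rowCFG : OfCFG := by
  intro hq
  refine ⟨fun m T w w' Ψ _ _ => tsb m T w w' Ψ, fun m T w w' Ψ Ψ' hw hw' h => ?_,
    fun m T w w' Ψ Ψ' => ?_, fun m T w w' c Ψ => ?_, fun κ s m T w w' Ψ => ?_,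
    fun Sg m p P tp j0 hp hS hB hN => ?_⟩
  · rw [ts_eq, ts_eq]
    refine sum_le_sum fun p _ => sum_le_sum fun P _ => ?_
    split_ifs with hc
    · by_cases h0 : (∏ i, w (p i)) * w' P = 0
      · rw [h0, zero_mul, zero_mul]
      · exact mul_le_mul_of_nonneg_left (h p P hc.1 hc.2.1
          (fun i => prod_ne_zero_iff.1 (left_ne_zero_of_mul h0) i (mem_univ i))
          (right_ne_zero_of_mul h0) hc.2.2) (mul_nonneg (prod_nonneg fun i _ => hw _) (hw' _))
    · exact le_rfl
  · simp only [ts_eq, ← sum_add_distrib]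
    refine sum_congr rfl fun p _ => sum_congr rfl fun P _ => ?_
    split_ifs <;> ring
  · simp only [ts_eq, mul_sum]
    refine sum_congr rfl fun p _ => sum_congr rfl fun P _ => ?_
    split_ifs <;> ring
  · simp only [ts_eq]
    rw [sum_comm (s := s)]
    refine sum_congr rfl fun p _ => ?_
    rw [sum_comm (s := s)]
    refine sum_congr rfl fun P _ => ?_
    split_ifs
    · rw [mul_sum]
    · rw [sum_const_zero]
  have hi := inj hp fun i => (hB i).2
  have ne : ∀ (i : Fin m) (s : Sg), p i ≠ s := fun i s e => (hB i).2 (e ▸ s.2)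
  have low : ∀ l, l ∉ BB Sg m → lev (prs Sg p l) ≤ tp / 2 := by
    rintro (s | i) h
    exacts [hN.low s s.2, absurd (inr_mem i) h]
  have cf : ∀ (s : Finset (Sg ⊕ Fin m)) (Q : ℕ → Prop) [DecidablePred Q],
      (s.filter fun l => Q (prs Sg p l)).card = ((s.image (prs Sg p)).filter Q).card :=
    fun s Q _ => by rw [filter_image, card_image_of_injective _ hi]
  refine ⟨?_, ?_, fun a ha ε => ?_, low, ?_, fun w hw h0 => ?_, ?_, ?_⟩
  · rintro (s | i) h (s' | i') h' he
    · exact absurd h (inl_notMem s)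
    · exact absurd h (inl_notMem s)
    · have h1 := hq.rcp _ _ (hB i).1 (hS s' s'.2) (ne i s')
      have h2 : eps (p i) = 0 := he
      have h3 : ∀ x y : F2, x + y = 0 → y = x := by decide
      rw [h2, zero_mul] at h1
      exact (if_neg (ne i s').symm).trans ((h3 _ _ h1).trans (if_neg (ne i s')).symm)
    · exact absurd (inr_mem i') h'
  · obtain ⟨q, hq1, h1, h2, h3⟩ := hN.top
    obtain ⟨i, -, rfl⟩ := mem_image.1 hq1
    refine ⟨Sum.inr i, inr_mem i, h1, h2, ?_⟩
    rintro (s | j) h
    · have := low _ (inl_notMem s)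
      omega
    · exact congrArg _ (hp (h3 _ (mem_image_of_mem p (mem_univ j)) h))
  · rw [cf _ fun l => lev l = a ∧ eps l = ε, img_BB]
    exact hN.cnt a ha ε
  · rw [← card_image_of_injective _ hi, img_compl]
    exact hN.sml
  · have h1 : ∀ x : F2, x = 0 ∨ x = 1 := by decide
    obtain ⟨l₀, hl₀⟩ := Function.ne_iff.1 h0
    obtain ⟨l, hl, h2, h3, h4⟩ := hN.det ((univ.filter fun l => w l = 1).image (prs Sg p))
      (image_subset_iff.2 (by
        rintro (s | i) h
        · exact s.2
        · exact absurd ((hw _ (inr_mem i)).symm.trans (mem_filter.1 h).2) zero_ne_one))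
      ⟨_, mem_image_of_mem _ (mem_filter.2 ⟨mem_univ l₀, (h1 _).resolve_left hl₀⟩)⟩
    obtain ⟨i, -, rfl⟩ := mem_image.1 hl
    refine ⟨Sum.inr i, inr_mem i, h2, h3, ?_⟩
    rw [← h4, sum_image fun a _ b _ e => hi e, sum_filter]
    refine sum_congr rfl ?_
    rintro (s | j) -
    · rcases h1 (w (Sum.inl s)) with h | h
      · rw [h, mul_zero, if_neg zero_ne_one]
      · rw [h, mul_one, if_pos rfl]
        exact if_neg (ne i s)
    · rw [hw _ (inr_mem j), mul_zero, if_neg zero_ne_one]
  · rw [cf _ fun l => lev l = 0, img_univ]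
    exact hN.ev
  · rw [← hN.es, ← img_univ, sum_image fun a _ b _ e => hi e]

end Pool.Agent.MP_1246c0_nt.H12
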