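import Pool.Agent.MP_1246c0_nt.H12.SpecA

/-! Reduction of the relations modulo the maximal ideal. -/

namespace Pool.Agent.MP_1246c0_nt.H12

open Polynomial Finset IsLocalRing

namespace V1

/-- descent from an extension field to the field defined by `p` -/
theorem desc {ι k : Type} [Fintype ι] [DecidableEq ι] [Field k] (j : F2 →+* k) (σ : k)
    (p : F2[X]) (hp : Irreducible p) (hσ : p.eval₂ j σ = 0) (S : Matrix ι ι F2) (e : ι → F2)
    (P : Finset ι) (o : F2) (x : ι → k) (hx : x ≠ 0)
    (h1 : ∀ l, ∑ l', j (S l l') * x l' =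
      if l ∈ P then σ * (x l + j o * ∑ l' ∈ P, x l') else 0)
    (h2 : ∑ l, j (e l) * x l = 0) : Hit S e P o p := by
  have : Fact (Irreducible p) := ⟨hp⟩
  let : Algebra (AdjoinRoot p) k := (AdjoinRoot.lift j σ hσ).toAlgebra
  obtain ⟨l₀, hl₀⟩ := Function.ne_iff.1 hx
  obtain ⟨φ, hφ⟩ := Module.Projective.exists_dual_ne_zero (AdjoinRoot p) hl₀
  have a1 : ∀ (r : F2) (v : k), φ (j r * v) = r • φ v := fun r v => by
    have : j r * v = (AdjoinRoot.of p r) • v := by
      rw [Algebra.smul_def, RingHom.algebraMap_toAlgebra, AdjoinRoot.lift_of]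
    rw [this, map_smul, smul_eq_mul, Algebra.smul_def, AdjoinRoot.algebraMap_eq]
  have a2 : ∀ v : k, φ (σ * v) = AdjoinRoot.root p * φ v := fun v => by
    have : σ * v = (AdjoinRoot.root p) • v := by
      rw [Algebra.smul_def, RingHom.algebraMap_toAlgebra, AdjoinRoot.lift_root]
    rw [this, map_smul, smul_eq_mul]
  refine ⟨fun l => φ (x l), Function.ne_iff.2 ⟨l₀, hφ⟩, fun l => ?_, ?_⟩
  · have := congrArg φ (h1 l)
    simp only [map_sum, a1] at this
    simp only [ap, xv, rv, Bool.false_eq_true, and_false, if_false, LinearMap.mulLeft_apply, this]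
    split_ifs
    · rw [a2, map_add, a1, map_sum]
    · exact map_zero φ
  · have := congrArg φ h2
    simp only [map_sum, a1, map_zero] at this
    simpa only [xv, Bool.false_eq_true, and_false, if_false] using this

theorem om_succ {O : Type} [CommRing O] (b : ℕ) (t : O) :
    om (b + 1) t = om b t * (om b t + 2) := by
  simp only [om, pow_succ, pow_mul]
  ring

theorem four_dvd {O : Type} [CommRing O] {a b : ℕ} {t : O} (h : 2 ∣ om a t) (hab : a < b) :
    4 ∣ om b t := by
  induction b, hab using Nat.le_induction with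
  | base =>
    obtain ⟨s, hs⟩ := h
    exact ⟨s * (s + 1), by rw [om_succ, hs]; ring⟩
  | succ b _ ih => rw [om_succ]; exact ih.mul_right _

theorem sum_sub {ι k : Type} [Fintype ι] [AddCommMonoid k] {p : ι → Prop} {F : Fintype (Subtype p)}
    (f : ι → k) (hf : ∀ i, ¬p i → f i = 0) : ∑ i : Subtype p, f i = ∑ i, f i := by
  classical
  rw [← sum_subtype (univ.filter p) (by simp) f]
  exact sum_filter_of_ne fun i _ h => by_contra fun hp => h (hf i hp)

variable {ι : Type} [Fintype ι] [DecidableEq ι] {pr : ι → ℕ} {P : ℕ}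

theorem sum_SP {k : Type} [AddCommMonoid k] (h : Lab pr P) (f : ℕ → k) :
    ∑ l ∈ SP pr P, f l = f P + ∑ i, f (pr i) := by
  rw [SP, sum_insert (by simpa using h.ne), sum_image fun a _ b _ e => h.inj e]

theorem mem_SP (i : ι) : pr i ∈ SP pr P := mem_insert_of_mem (mem_image_of_mem _ (mem_univ i))

theorem row_sum (hq : SQR) (h : Lab pr P) (i : ι) :
    ∑ j, R0 (SP pr P) (pr i) (pr j) = R0 (SP pr P) (pr i) P := by
  obtain ⟨-, -, -, gP, -, eP⟩ := hq.lab ι pr P h
  have a1 : ∑ c ∈ (SP pr P).erase (pr i), lg c (pr i) =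
      lg P (pr i) + ∑ j ∈ univ.erase i, lg (pr j) (pr i) := by
    have b1 := add_sum_erase _ (fun c => lg c (pr i)) (mem_SP (pr := pr) (P := P) i)
    have b2 := add_sum_erase _ (fun j => lg (pr j) (pr i)) (mem_univ i)
    rw [sum_SP h, ← b2] at b1
    linear_combination b1
  have a2 : ∑ j ∈ univ.erase i, R0 (SP pr P) (pr i) (pr j) =
      ∑ j ∈ univ.erase i, lg (pr i) (pr j) :=
    sum_congr rfl fun j hj => if_neg fun e => (mem_erase.1 hj).1 (h.inj e).symm
  have a3 : ∑ j ∈ univ.erase i, lg (pr i) (pr j) + ∑ j ∈ univ.erase i, lg (pr j) (pr i) =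
      eps (pr i) * ∑ j ∈ univ.erase i, eps (pr j) := by
    rw [← sum_add_distrib, mul_sum]
    exact sum_congr rfl fun j hj =>
      hq.rcp _ _ (h.odd i) (h.odd j) fun e => (mem_erase.1 hj).1 (h.inj e).symm
  have a4 := add_sum_erase _ (fun j => eps (pr j)) (mem_univ i)
  rw [h.es] at a4
  have a5 := hq.rcp _ _ (h.odd i) gP (h.ne i)
  rw [eP, mul_zero] at a5
  have a6 : ∀ x y u v : F2, x + y = 0 → u + v = 0 → x + v + x * y = u := by decide
  rw [← add_sum_erase _ _ (mem_univ i), a2, R0, if_pos rfl, a1, R0, if_neg (h.ne i),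
    ← a6 _ _ _ _ a4 a5, ← a3]
  ring

theorem charP_res {O : Type} [CommRing O] [IsLocalRing O] (h : ¬IsUnit (2 : O)) :
    CharP (ResidueField O) 2 := by
  refine (CharP.charP_iff_prime_eq_zero Nat.prime_two).2 ?_
  rw [← map_natCast (residue O), residue_eq_zero_iff]
  simpa using h

theorem cv_zero {O : Type} [CommRing O] (g : O) (f : Co 0) : cv g f = ((f 0).val : O) := by
  have : Subsingleton (ZMod (2 ^ 0)) := inferInstanceAs (Subsingleton (ZMod 1))
  rw [cv, Fintype.sum_subsingleton _ 0, ZMod.val_zero, pow_zero g, mul_one]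

end V1

open V1 in
theorem rowV1 : OfV1 := by
  intro hq _
  refine ⟨fun O _ _ _ _ s h2 => ?_, ?_⟩
  · have := charP_res h2
    let : Algebra F2 (ResidueField O) := ZMod.algebra _ 2
    have : Module.Finite F2 (ResidueField O) := Module.Finite.of_finite
    have hi : IsIntegral F2 (residue O s) := IsIntegral.of_finite _ _
    obtain ⟨q, h1, -, h3⟩ := lifts_and_natDegree_eq_and_monic (f := Int.castRingHom F2)
      (p := minpoly F2 (residue O s))
      ((mem_lifts _).2 (map_surjective _ (ZMod.ringHom_surjective _) _)) (minpoly.monic hi)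
    refine ⟨q, h3, h1 ▸ minpoly.irreducible hi, ?_⟩
    have h4 := minpoly.aeval F2 (residue O s)
    rw [← h1, aeval_def, eval₂_map] at h4
    rw [← mem_nonunits_iff, ← mem_maximalIdeal, ← residue_eq_zero_iff, aeval_def, hom_eval₂,
      ← h4]
    congr 1
    exact RingHom.ext_int _ _
  intro O ι _ _ _ _ _ _ pr P a f R c t s y q hl hE hL hs hR hR0 hc0 qm qi qs hf
  obtain ⟨-, -, -, -, lP, eP⟩ := hq.lab ι pr P hl
  have := charP_res hE.1
  let j : F2 →+* ResidueField O := ZMod.castHom (dvd_refl 2) _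
  have nu0 : ∀ x : O, ¬IsUnit x ↔ residue O x = 0 := fun x => by
    rw [residue_eq_zero_iff, mem_maximalIdeal, mem_nonunits_iff]
  have r2 : residue O 2 = 0 := (nu0 _).1 hE.1
  have k2 : (2 : ResidueField O) = 0 := by rw [← r2, map_ofNat]
  have rt : residue O t = 0 := (nu0 _).1 hE.2.1
  have rI : ∀ x ∈ Ideal.span {(2 : O), t ^ 2 ^ 0}, residue O x = 0 := fun x hx => by
    obtain ⟨u, v, rfl⟩ := Ideal.mem_span_pair.1 hx
    simp [r2, rt]
  have rc : ∀ g : Co 0, residue O (cv (1 + t) g) = j (g 0) := fun g => by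
    rw [cv_zero, map_natCast, ← map_natCast j, ZMod.natCast_zmod_val]
  have low : ∀ l ∈ SP pr P, lev l < a → residue O (y l) = 0 := fun l hlS hla =>
    (nu0 _).1 fun hu => hL.2 _ hla (hu.dvd_mul_right.1 (hR.s0 l hlS))
  have row : ∀ l ∈ SP pr P, a ≤ lev l →
      ∑ l' ∈ SP pr P, j (R0 (SP pr P) l l') * residue O (y l') =
        if lev l = a then residue O s * residue O (y l) else 0 := fun l hlS hla => by
    obtain ⟨C, hC, z, hz, hm⟩ := hR.s1 l hlS (Nat.zero_le _)
    have e1 := rI _ hm
    rw [map_sub, map_sum, sub_eq_zero] at e1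
    have e2 : ∑ l' ∈ SP pr P, j (R0 (SP pr P) l l') * residue O (y l') = residue O z := by
      rw [e1]
      exact sum_congr rfl fun l' h' => by
        rw [map_mul, hC l' h' (Nat.zero_le _), rc, hR0 l hlS l' h']
    rw [e2]
    split_ifs with h
    · rw [h, hs, mul_assoc] at hz
      rw [← mul_left_cancel₀ two_ne_zero hz, map_mul]
    · obtain ⟨w, hw⟩ := four_dvd hL.1 (lt_of_le_of_ne hla (Ne.symm h))
      have : z = 2 * (w * y l) :=
        mul_left_cancel₀ (two_ne_zero (α := O)) (by rw [← hz, hw]; ring)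
      rw [this, map_mul, r2, zero_mul]
  have he : ∑ i, j (eps (pr i)) * residue O (y (pr i)) = 0 := by
    obtain ⟨C, hC, hm⟩ := hR.s2
    have e1 := rI _ hm
    have e2 : ∑ l ∈ SP pr P, j (eps l) * residue O (y l) = 0 := by
      rw [← e1, map_sum]
      exact sum_congr rfl fun l h => by rw [map_mul, hC l h (Nat.zero_le _), rc, hc0 l h]
    rwa [sum_SP hl, eP, map_zero, zero_mul, zero_add] at e2
  have hz : residue O (y P) +
      ∑ i ∈ univ.filter fun i => lev (pr i) = 0, residue O (y (pr i)) = 0 := by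
    obtain ⟨w, hw⟩ := hR.s3
    have e1 := congrArg (residue O) hw
    have e2 : ∀ b, residue O (nu b t) = if b = 0 then 1 else 0 := fun b => by
      simp only [nu, map_sum, map_pow, map_add, map_one, rt, add_zero, one_pow, sum_const,
        card_range, nsmul_eq_mul, mul_one, Nat.cast_pow, Nat.cast_ofNat, k2]
      cases b <;> simp
    rw [map_mul, r2, zero_mul, map_sum, sum_SP hl] at e1
    simp only [map_mul, e2, lP, if_true, one_mul, ite_mul, zero_mul] at e1
    rwa [sum_filter]
  set x : ι → ResidueField O := fun i => residue O (y (pr i)) + residue O (y P) with hx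
  have yP : a ≠ 0 → residue O (y P) = 0 := fun h => low P (mem_insert_self _ _) (by omega)
  have x0 : ∀ i, ¬a ≤ lev (pr i) → x i = 0 := fun i h => by
    simp only [hx]
    rw [low _ (mem_SP i) (by omega), yP (by omega), add_zero]
  have ho : j (if a = 0 then 1 else 0) *
      ∑ l ∈ univ.filter fun l : {l // a ≤ lev (pr l)} => lev (pr l.1) = a, x l.1 =
        residue O (y P) := by
    split_ifs with h
    · subst h
      obtain ⟨n, hn⟩ := hl.ev
      rw [map_one, one_mul, sum_filter,
        sum_sub (fun i => if lev (pr i) = 0 then x i else 0) fun i h => absurd (Nat.zero_le _) h,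
        ← sum_filter]
      simp only [hx]
      rw [sum_add_distrib, sum_const, hn, nsmul_eq_mul]
      push_cast
      linear_combination hz + (n * residue O (y P) - residue O (y P)) * k2
    · rw [map_zero, zero_mul, yP h]
  refine ⟨q.map (Int.castRingHom F2), qi, by rwa [qm.natDegree_map], ?_⟩
  refine desc j (residue O s) _ qi ?_ _ _ _ _ (fun l => x l.1) ?_ (fun l => ?_) ?_
  · rw [eval₂_map, ← (nu0 _).1 qs, aeval_def, hom_eval₂]
    congr 1
    exact RingHom.ext_int _ _
  · intro h0
    have h1 : ∀ i, x i = 0 := fun i => by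
      by_cases h : a ≤ lev (pr i)
      · exact congrFun h0 ⟨i, h⟩
      · exact x0 i h
    have h2 : residue O (y P) = 0 := by
      rw [← ho, sum_eq_zero fun l _ => h1 l.1, mul_zero]
    obtain ⟨l, hlS, hu⟩ := hR.unit
    refine (nu0 _).2 ?_ hu
    rcases mem_insert.1 hlS with rfl | h
    · exact h2
    · obtain ⟨i, -, rfl⟩ := mem_image.1 h
      simpa only [hx, h2, add_zero] using h1 i
  · rw [ho]
    have e1 := row _ (mem_SP l.1) l.2
    rw [sum_SP hl, ← row_sum hq hl, map_sum, sum_mul, ← sum_add_distrib] at e1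
    have e2 := sum_sub (F := inferInstance) (p := fun i => a ≤ lev (pr i))
      (fun i => j (R0 (SP pr P) (pr l.1) (pr i)) * x i) fun i h => by rw [x0 i h, mul_zero]
    simp only [Matrix.submatrix_apply, Sm0, mem_filter, mem_univ, true_and]
    rw [e2]
    have e3 : x l.1 + residue O (y P) = residue O (y (pr l.1)) := by
      simp only [hx]
      linear_combination residue O (y P) * k2
    rw [e3, ← e1]
    exact sum_congr rfl fun i _ => by simp only [hx]; ring
  · rw [sum_sub (fun i => j (eps (pr i)) * x i) fun i h => by rw [x0 i h, mul_zero]]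
    simp only [hx, mul_add]
    rw [sum_add_distrib, he, ← sum_mul, ← map_sum, hl.es, map_zero, zero_mul, add_zero]

end Pool.Agent.MP_1246c0_nt.H12
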