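import Pool.Agent.MP_1246c0_nt.H25.SpecU
import Pool.Agent.MP_db5b97_nt.H36.AL
import Pool.Agent.MP_db5b97_nt.H72.Z

/-! Continuation of the Dirichlet series of periodic functions of mean zero. -/

namespace Pool.Agent.MP_1246c0_nt.H25

namespace AL1

open NumberField NumberField.InfinitePlace NumberField.Units NumberField.mixedEmbedding
  NumberField.mixedEmbedding.fundamentalCone NumberField.Units.dirichletUnitTheorem
  Pool.Agent.MP_db5b97_nt Pool.Agent.MP_db5b97_nt.H85 Pool.Agent.MP_db5b97_nt.H36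

variable {K : Type} [Field K] [NumberField K]

theorem norm_nc (I : Ideal (𝓞 K)) {s : ℂ} (hs : 0 < s.re) : ‖nc I s‖ = nz I s.re := by
  rw [nc, Complex.norm_natCast_cpow_of_re_ne_zero _ (by simpa using hs.ne'), nz, Complex.neg_re]

theorem nc_bot {s : ℂ} (hs : 0 < s.re) : nc (⊥ : Ideal (𝓞 K)) s = 0 := by
  rw [← norm_eq_zero, norm_nc _ hs, nz_bot hs]

theorem nc_eq {x : 𝓞 K} (hx : x ≠ 0) (s : ℂ) : nc (Ideal.span {x}) s =
    Complex.exp (-(s * ((Module.finrank ℚ K * co x w₀ : ℝ) : ℂ))) := by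
  have h := one_pos.trans_le (one_le_norm hx)
  rw [nc, Complex.cpow_def_of_ne_zero (by exact_mod_cast h.ne'), ← Complex.natCast_log,
    log_norm hx]
  congr 1
  ring

omit [NumberField K] in
theorem norm_sgA (A : Finset (K →+* ℝ)) (x : 𝓞 K) : ‖sgA A x‖ = 1 := by
  rw [sgA, norm_prod]
  refine Finset.prod_eq_one fun ρ _ => ?_
  split_ifs <;> simp

variable (K) in
theorem near : ∃ B L : ℝ, 0 ≤ B ∧ 0 ≤ L ∧ ∀ (x y : 𝓞 K) (ρ : ℝ), x ≠ 0 → ps hat x ≠ 0 → 0 ≤ ρ →
    (∀ w : InfinitePlace K, w ((x : K) - y) ≤ ρ) → 2 * (ρ * B * Real.exp (-co x w₀)) ≤ 1 →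
    y ≠ 0 ∧ (∀ j, |co x j - co y j| ≤ L * (ρ * B * Real.exp (-co x w₀))) ∧
      ∀ A, sgA A y = sgA A x := by
  obtain ⟨A, hA⟩ := log_ge K
  obtain ⟨L, hL, hlip⟩ := co_lip K
  refine ⟨Real.exp A, L * 2, by positivity, by positivity, fun x y ρ hx0 hx hρ hxy h => ?_⟩
  have hA' := hA x fun i => (hat_ne (Finset.prod_ne_zero_iff.1 hx i (Finset.mem_univ _))).le
  set η := ρ * Real.exp A * Real.exp (-co x w₀) with hη
  have hη0 : 0 ≤ η := by positivity
  have k0 : ∀ w : InfinitePlace K, w ((x : K) - y) ≤ η * w (x : K) := by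
    intro w
    refine (hxy w).trans ?_
    have := (Real.le_log_iff_exp_le (place_pos hx0 w)).1 (hA' w)
    calc ρ = η * Real.exp (co x w₀ - A) := by
          rw [hη, mul_assoc, mul_assoc, ← Real.exp_add, ← Real.exp_add,
            show A + (-co x w₀ + (co x w₀ - A)) = 0 by ring, Real.exp_zero, mul_one]
      _ ≤ _ := by gcongr
  have k1 : ∀ w : InfinitePlace K, |w (x : K) - w (y : K)| ≤ η * w (x : K) := fun w =>
    (w.1.abs_abv_sub_le_abv_sub (x : K) (y : K)).trans (k0 w)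
  have k2 : ∀ w : InfinitePlace K, w (x : K) ≤ 2 * w (y : K) := fun w => by
    nlinarith [le_of_abs_le (k1 w), place_pos hx0 w]
  have hy0 : y ≠ 0 := by
    rintro rfl
    have := k2 w₀
    simp only [map_zero, mul_zero] at this
    exact absurd (place_pos hx0 w₀) (not_lt.2 this)
  refine ⟨hy0, fun j => ?_, fun A => Finset.prod_congr rfl fun φ _ => ?_⟩
  · rw [mul_assoc]
    refine hlip x y (2 * η) (by positivity) (fun w => ?_) j
    have hx' := place_pos hx0 w
    have hy' := place_pos hy0 w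
    have a := Real.log_le_sub_one_of_pos (div_pos hx' hy')
    have b := Real.log_le_sub_one_of_pos (div_pos hy' hx')
    rw [Real.log_div hx'.ne' hy'.ne'] at a
    rw [Real.log_div hy'.ne' hx'.ne'] at b
    have a' : w (x : K) / w (y : K) ≤ 1 + 2 * η := by
      rw [div_le_iff₀ hy']
      nlinarith [le_of_abs_le (k1 w), k2 w]
    have b' : w (y : K) / w (x : K) ≤ 1 + η := by
      rw [div_le_iff₀ hx']
      linarith [neg_le_of_abs_le (k1 w)]
    rw [abs_le]
    constructor <;> linarith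
  · have e : ∀ z : K, InfinitePlace.mk (Complex.ofRealHom.comp φ) z = |φ z| := fun z => by
      rw [InfinitePlace.apply]
      simp
    have a := k0 (InfinitePlace.mk (Complex.ofRealHom.comp φ))
    have b := place_pos hx0 (InfinitePlace.mk (Complex.ofRealHom.comp φ))
    rw [e, e, map_sub] at a
    rw [e] at b
    have c : |φ x - φ y| ≤ |φ x| / 2 := a.trans (by nlinarith)
    refine if_congr ?_ rfl rfl
    rcases abs_cases (φ x) with d | d <;> constructor <;> intro f <;>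
      linarith [le_of_abs_le c, neg_le_of_abs_le c]

/-- the signed weight -/
noncomputable def W (A : Finset (K →+* ℝ)) (s : ℂ) (x : 𝓞 K) : ℂ :=
  sgA A x * nc (Ideal.span {x}) s * ps hat x

theorem W_le (A : Finset (K →+* ℝ)) {s : ℂ} (hs : 0 < s.re) (x : 𝓞 K) : ‖W A s x‖ ≤ 1 := by
  rw [W, norm_mul, norm_mul, norm_sgA, one_mul, norm_nc _ hs, Complex.norm_real,
    Real.norm_of_nonneg (ps_nonneg hat_nonneg x)]
  exact wt_le hs x

theorem re_pos {s : ℂ} (h : 1 - 1 / (2 * (Module.finrank ℚ K : ℝ)) ≤ s.re) : 0 < s.re := by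
  have h1 : (1 : ℝ) ≤ Module.finrank ℚ K := Nat.one_le_cast.2 Module.finrank_pos
  have : 1 / (2 * (Module.finrank ℚ K : ℝ)) ≤ 1 / 2 :=
    one_div_le_one_div_of_le two_pos (by linarith)
  linarith

variable (K) in
theorem est : ∃ C : ℝ, 0 ≤ C ∧ ∀ (A : Finset (K →+* ℝ)) (s : ℂ) (x y : 𝓞 K) (ρ : ℝ),
    1 - 1 / (2 * (Module.finrank ℚ K : ℝ)) ≤ s.re → ‖s‖ ≤ 4 → 0 ≤ ρ →
    (∀ w : InfinitePlace K, w ((x : K) - y) ≤ ρ) → W A s x ≠ 0 →
    ‖W A s x - W A s y‖ ≤ C * (ρ + 1) ^ (Module.finrank ℚ K + 1) *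
      nz (Ideal.span {x}) (1 + 1 / (2 * Module.finrank ℚ K)) := by
  obtain ⟨B, L, hB, hL, hnear⟩ := near K
  have hs0 := @re_pos K _ _
  set n := Module.finrank ℚ K with hn
  have hn0 : (0 : ℝ) < n := Nat.cast_pos.2 Module.finrank_pos
  refine ⟨(rank K + 8 * n) * (L * B) + 2 * ((2 + 4 * n * L) * B) ^ (n + 1), by positivity,
    fun A s x y ρ h1 h2 hρ hxy hx => ?_⟩
  have hs := hs0 h1
  have hx0 : x ≠ 0 := by
    rintro rfl
    exact hx (by simp [W, nc_bot hs])
  have hx1 : ps hat x ≠ 0 := fun h => hx (by simp [W, h])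
  have hc : 0 ≤ co x w₀ :=
    nonneg_of_mul_nonneg_right (log_norm hx0 ▸ Real.log_nonneg (one_le_norm hx0)) hn0
  have hnear' := hnear x y ρ hx0 hx1 hρ hxy
  set E := Real.exp (-co x w₀) with hE
  have hE0 : 0 < E := Real.exp_pos _
  have e0 : (1 + 1 / (2 * n)) * (n * co x w₀) = n * co x w₀ + co x w₀ / 2 := by field_simp
  have e1 : E ^ (n + 1) ≤ nz (Ideal.span {x}) (1 + 1 / (2 * n)) := by
    rw [nz_eq hx0, ← Real.exp_nat_mul, ← hn, Real.exp_le_exp, e0]
    push_cast
    nlinarith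
  have e2 : nz (Ideal.span {x}) s.re * E ≤ nz (Ideal.span {x}) (1 + 1 / (2 * n)) := by
    rw [nz_eq hx0, nz_eq hx0, ← Real.exp_add, ← hn, Real.exp_le_exp, e0]
    have a : (1 - 1 / (2 * n)) * (n * co x w₀) = n * co x w₀ - co x w₀ / 2 := by field_simp
    have b := mul_le_mul_of_nonneg_right h1 (mul_nonneg hn0.le hc)
    linarith
  have z0 := nz_nonneg (Ideal.span {x}) (1 + 1 / (2 * (n : ℝ)))
  set η := ρ * B * E with hη
  have hη0 : 0 ≤ η := by positivity
  rw [add_mul, add_mul]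
  rcases le_total ((2 + 4 * n * L) * η) 1 with h | h
  · refine le_add_of_le_of_nonneg ?_ (by positivity)
    have k0 : 0 ≤ n * L * η := by positivity
    obtain ⟨hy0, k3, k8⟩ := hnear' (by nlinarith)
    have k4 : |ps hat x - ps hat y| ≤ rank K * (L * η) := by
      simpa [ps] using abs_prod_sub Finset.univ
        (fun i => (abs_of_nonneg (hat_nonneg _)).le.trans (hat_le _))
        (fun i => (abs_of_nonneg (hat_nonneg _)).le.trans (hat_le _))
        fun i : Fin (rank K) => (hat_lip _ _).trans (k3 (equivFinRank i).1)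
    have k5 : ‖s * ((n * (co x w₀ - co y w₀) : ℝ) : ℂ)‖ ≤ 4 * (n * (L * η)) := by
      rw [norm_mul, Complex.norm_real, Real.norm_eq_abs, abs_mul, abs_of_pos hn0]
      gcongr
      exact k3 _
    have k6 := Complex.norm_exp_sub_one_le (k5.trans (by nlinarith))
    have e3 : W A s x - W A s y = sgA A x * nc (Ideal.span {x}) s *
        (((ps hat x - ps hat y : ℝ) : ℂ) -
          (Complex.exp (s * ((n * (co x w₀ - co y w₀) : ℝ) : ℂ)) - 1) * ps hat y) := by
      have : nc (Ideal.span {y}) s =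
          nc (Ideal.span {x}) s * Complex.exp (s * ((n * (co x w₀ - co y w₀) : ℝ) : ℂ)) := by
        rw [nc_eq hx0, nc_eq hy0, ← Complex.exp_add]
        congr 1
        push_cast
        ring
      rw [W, W, this, k8]
      push_cast
      ring
    rw [e3, norm_mul, norm_mul, norm_sgA, one_mul, norm_nc _ hs]
    have z1 := nz_nonneg (Ideal.span {x}) s.re
    calc _ ≤ nz (Ideal.span {x}) s.re * (rank K * (L * η) + 2 * (4 * (n * (L * η)))) := by
          gcongr
          refine (norm_sub_le _ _).trans (add_le_add (by rwa [Complex.norm_real]) ?_)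
          rw [norm_mul, Complex.norm_real, Real.norm_of_nonneg (ps_nonneg hat_nonneg y)]
          exact (mul_le_of_le_one_right (norm_nonneg _) (ps_le y)).trans (by linarith)
      _ = (rank K + 8 * n) * (L * B) * ρ * (nz (Ideal.span {x}) s.re * E) := by rw [hη]; ring
      _ ≤ _ := by
          gcongr
          exact (le_add_of_nonneg_right zero_le_one).trans
            (le_self_pow₀ (by linarith) (Nat.succ_ne_zero n))
  · refine le_add_of_nonneg_of_le (by positivity) ?_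
    calc _ ≤ 2 * ((2 + 4 * n * L) * η) ^ (n + 1) := by
          have := one_le_pow₀ (n := n + 1) h
          linarith [norm_sub_le (W A s x) (W A s y), W_le A hs x, W_le A hs y]
      _ = 2 * ((2 + 4 * n * L) * B) ^ (n + 1) * ρ ^ (n + 1) * E ^ (n + 1) := by
          rw [hη, show (2 + 4 * n * L) * (ρ * B * E) = (2 + 4 * n * L) * B * ρ * E by ring,
            mul_pow _ E, mul_pow _ ρ]
          ring
      _ ≤ _ := by
          gcongr
          linarith

/-- the majorant -/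
noncomputable def mk (x : 𝓞 K) : ℝ :=
  nz (Ideal.span {x}) (1 + 1 / (2 * Module.finrank ℚ K)) * ps box x

theorem mk_nonneg (x : 𝓞 K) : 0 ≤ mk x := mul_nonneg (nz_nonneg _ _) (ps_nonneg box_nonneg _)

variable (K) in
theorem est2 : ∃ C : ℝ, 0 ≤ C ∧ ∀ (A : Finset (K →+* ℝ)) (s : ℂ) (x r : 𝓞 K) (ρ : ℝ),
    1 - 1 / (2 * (Module.finrank ℚ K : ℝ)) ≤ s.re → ‖s‖ ≤ 4 → 0 ≤ ρ →
    (∀ w : InfinitePlace K, w (r : K) ≤ ρ) →
    ‖W A s (x + r) - W A s x‖ ≤ C * (ρ + 1) ^ (Module.finrank ℚ K + 1) * (mk (x + r) + mk x) := by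
  obtain ⟨C, h0, hC⟩ := est K
  refine ⟨C, h0, fun A s x r ρ h1 h2 hρ k => ?_⟩
  have m : ∀ x : 𝓞 K, W A s x ≠ 0 →
      nz (Ideal.span {x}) (1 + 1 / (2 * Module.finrank ℚ K)) = mk x := by
    intro x hx
    have hx1 : ps hat x ≠ 0 := fun h => hx (by simp [W, h])
    rw [mk, ps, Finset.prod_eq_one, mul_one]
    intro i _
    have := abs_lt.1 (hat_ne (Finset.prod_ne_zero_iff.1 hx1 i (Finset.mem_univ _)))
    exact if_pos ⟨this.1.le, this.2⟩
  have a := mk_nonneg x
  have b := mk_nonneg (x + r)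
  by_cases hx : W A s x = 0
  · by_cases hy : W A s (x + r) = 0
    · rw [hx, hy, sub_zero, norm_zero]
      positivity
    · refine (hC A s _ _ ρ h1 h2 hρ (fun w => by simpa using k w) hy).trans ?_
      rw [m _ hy]
      gcongr
      linarith
  · rw [norm_sub_rev]
    refine (hC A s _ _ ρ h1 h2 hρ (fun w => ?_) hx).trans ?_
    · rw [show (x : K) - (x + r : 𝓞 K) = -(r : K) by simp]
      exact (w.1.map_neg _).trans_le (k w)
    · rw [m _ hx]
      gcongr
      linarith

variable (K) in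
theorem mk_sum : Summable (mk : 𝓞 K → ℝ) := by
  classical
  have hn : (0 : ℝ) < 1 / (2 * Module.finrank ℚ K) :=
    one_div_pos.2 (mul_pos two_pos (Nat.cast_pos.2 Module.finrank_pos))
  have := (hasSum_fiber (K := K) (ps_nonneg box_nonneg)
    (fun x hx => hasSum_unit (f := box) (κ := 2) (fun t ht => by_contra fun h => ht (if_neg h))
      (fun t a b => by
        rw [box, box, if_pos ⟨by linarith, b⟩, if_pos ⟨by linarith, by linarith⟩]; norm_num) hx)
    (h := fun I => if I.IsPrincipal then (nz I (1 + 1 / (2 * Module.finrank ℚ K)) : ℂ) else 0)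
    (Summable.of_norm_bounded
      (H72.zeta_sum (s := 1 + 1 / (2 * Module.finrank ℚ K)) (by linarith)).1 fun I => by
      split_ifs
      · simp [abs_of_nonneg (nz_nonneg I _)]
      · simpa using nz_nonneg I _)
    (fun I hI => if_neg hI) (by rw [nz_bot (by linarith)]; simp)).summable
  refine Complex.summable_ofReal.1 (this.congr fun x => ?_)
  rw [if_pos ⟨x, rfl⟩, mk, Complex.ofReal_mul]

variable (K) in
theorem reps : ∃ C : ℝ, 0 ≤ C ∧ ∀ Q : ℕ, 0 < Q → ∀ q : 𝓞 K ⧸ Ideal.span {(Q : 𝓞 K)},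
    ∃ r : 𝓞 K, Ideal.Quotient.mk _ r = q ∧ ∀ w : InfinitePlace K, w (r : K) ≤ C * Q := by
  let b := RingOfIntegers.basis K
  refine ⟨∑ w : InfinitePlace K, ∑ i, w (b i : K),
    Finset.sum_nonneg fun w _ => Finset.sum_nonneg fun i _ => apply_nonneg w _, fun Q hQ q => ?_⟩
  obtain ⟨a, rfl⟩ := Ideal.Quotient.mk_surjective q
  have hQ' : (0 : ℤ) < Q := by exact_mod_cast hQ
  refine ⟨∑ i, (b.repr a i % Q) • b i, ?_, fun w => ?_⟩
  · rw [Ideal.Quotient.eq, Ideal.mem_span_singleton]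
    refine ⟨-∑ i, (b.repr a i / Q) • b i, ?_⟩
    conv_lhs => rw [← b.sum_repr a]
    simp only [Module.Basis.repr_sum_self]
    rw [mul_neg, Finset.mul_sum, ← Finset.sum_sub_distrib, ← Finset.sum_neg_distrib]
    refine Finset.sum_congr rfl fun i _ => ?_
    rw [← sub_smul, Int.emod_def, zsmul_eq_mul, zsmul_eq_mul]
    push_cast
    ring
  · calc _ ≤ ∑ i, w (b i : K) * Q := by
          rw [show ((∑ i, (b.repr a i % Q) • b i : 𝓞 K) : K) =
            ∑ i, ((b.repr a i % Q : ℤ) : K) * (b i : K) by simp]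
          refine (w.1.sum_le _ _).trans (Finset.sum_le_sum fun i _ => ?_)
          change w _ ≤ _
          rw [map_mul, mul_comm, InfinitePlace.map_intCast]
          gcongr
          rw [Int.norm_eq_abs, ← Int.cast_abs, abs_of_nonneg (Int.emod_nonneg _ hQ'.ne')]
          exact_mod_cast (Int.emod_lt_of_pos _ hQ').le
      _ ≤ _ := by
          rw [← Finset.sum_mul]
          gcongr
          exact Finset.single_le_sum (f := fun w : InfinitePlace K => ∑ i, w (b i : K))
            (fun w _ => Finset.sum_nonneg fun i _ => apply_nonneg w _) (Finset.mem_univ w)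

theorem W_diff (A : Finset (K →+* ℝ)) (x : 𝓞 K) {s : ℂ} (hs : 0 < s.re) :
    DifferentiableAt ℂ (fun s => W A s x) s := by
  have h : -s ≠ 0 := fun e => by simp [neg_eq_zero.1 e] at hs
  exact ((differentiableAt_const _).mul
    (differentiableAt_id.neg.const_cpow (Or.inr h))).mul (differentiableAt_const _)

theorem W_sum {θ : 𝓞 K → ℂ} {A : Finset (K →+* ℝ)} {Θ : Ideal (𝓞 K) → ℂ} (h1 : ∀ a, ‖θ a‖ ≤ 1)
    (hp : ∀ I, ¬I.IsPrincipal → Θ I = 0) (h2 : ∀ a, a ≠ 0 → Θ (Ideal.span {a}) = θ a * sgA A a)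
    {s : ℂ} (hs : 1 < s.re) : HasSum (fun x => θ x * W A s x)
      ((∑' I, Θ I * nc I s) * (Nat.card (torsion K) : ℂ)) := by
  have hs0 := one_pos.trans hs
  have k1 := hasSum_fiber (K := K) (ps_nonneg hat_nonneg)
    (fun x hx => hasSum_unit (f := hat) (κ := 1)
      (fun t ht => ⟨(abs_lt.1 (hat_ne ht)).1.le, (abs_lt.1 (hat_ne ht)).2⟩)
      (fun t a b => by
        rw [hat, hat, abs_of_nonneg a, abs_of_nonpos (by linarith), max_eq_right (by linarith),
          max_eq_right (by linarith)]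
        ring) hx)
    (h := fun I => Θ I * nc I s)
    (Summable.of_norm_bounded (H72.zeta_sum hs).1 fun I => by
      by_cases hI : I.IsPrincipal
      · obtain ⟨a, rfl⟩ := hI
        change ‖Θ (Ideal.span {a}) * nc (Ideal.span {a}) s‖ ≤ nz (Ideal.span {a}) s.re
        by_cases ha : a = 0
        · simpa [ha, nc_bot hs0] using nz_nonneg _ _
        · rw [h2 a ha, norm_mul, norm_mul, norm_sgA, mul_one, norm_nc _ hs0]
          exact mul_le_of_le_one_left (nz_nonneg _ _) (h1 a)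
      · simpa [hp I hI] using nz_nonneg _ _)
    (fun I hI => by rw [hp I hI, zero_mul]) (by rw [nc_bot hs0, mul_zero])
  simp only [one_pow, mul_one, Complex.ofReal_natCast] at k1
  refine k1.congr_fun fun x => ?_
  by_cases hx : x = 0
  · simp [hx, W, nc_bot hs0]
  · rw [h2 x hx, W]
    ring

end AL1

open NumberField NumberField.Units AL1 in
theorem rowAL1 : SAL1 := by
  classical
  intro K _ _
  obtain ⟨C, hC0, hC⟩ := est2 K
  obtain ⟨C', hC0', hR⟩ := reps K
  have hM := mk_sum K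
  set n := Module.finrank ℚ K with hn
  set M := ∑' x : 𝓞 K, mk x
  have hM0 : 0 ≤ M := tsum_nonneg mk_nonneg
  refine ⟨C * (C' + 1) ^ (n + 1) * (M + M), fun Q θ A Θ hQ h1 hper hz hp h2 => ?_⟩
  choose ρ hρ hρ' using hR Q hQ
  have hQ1 : (1 : ℝ) ≤ Q := Nat.one_le_cast.2 hQ
  have : Finite (𝓞 K ⧸ Ideal.span {(Q : 𝓞 K)}) :=
    Ideal.finiteQuotientOfFreeOfNeBot _ (by simpa using hQ.ne')
  have := Fintype.ofFinite (𝓞 K ⧸ Ideal.span {(Q : 𝓞 K)})
  have hθ : ∀ a : 𝓞 K, θ a = θ (Ideal.Quotient.mk (Ideal.span {(Q : 𝓞 K)}) a).out := by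
    intro a
    obtain ⟨c, hc⟩ := Ideal.mem_span_singleton.1 (Ideal.Quotient.eq.1
      (Ideal.Quotient.mk_out (Ideal.Quotient.mk (Ideal.span {(Q : 𝓞 K)}) a)))
    rw [← hper a c, ← hc, add_sub_cancel]
  have hz' : ∀ x : 𝓞 K, ∑ q, θ (x + ρ q) = 0 := by
    intro x
    rw [← hz, finsum_eq_sum_of_fintype]
    refine Fintype.sum_equiv (Equiv.addLeft (Ideal.Quotient.mk (Ideal.span {(Q : 𝓞 K)}) x)) _ _
      fun q => ?_
    rw [hθ, map_add, hρ, Equiv.coe_addLeft]
  have hb : ∀ s ∈ Metric.ball (2 : ℂ) (1 + 1 / (2 * (n : ℝ))),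
      1 - 1 / (2 * (n : ℝ)) ≤ s.re ∧ ‖s‖ ≤ 4 := by
    intro s hs
    rw [Metric.mem_ball, dist_eq_norm] at hs
    have a := Complex.abs_re_le_norm (s - 2)
    have b := norm_add_le (s - 2) 2
    have c : (1 : ℝ) ≤ n := Nat.one_le_cast.2 Module.finrank_pos
    have d : 1 / (2 * (n : ℝ)) ≤ 1 / 2 := one_div_le_one_div_of_le two_pos (by linarith)
    simp only [Complex.sub_re, Complex.re_ofNat, sub_add_cancel, Complex.norm_ofNat] at a b
    constructor <;> linarith [neg_le_of_abs_le a]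
  have k3 : HasSum (fun x : 𝓞 K => ∑ q, C * (C' * Q + 1) ^ (n + 1) * (mk (x + ρ q) + mk x))
      (∑ _q : 𝓞 K ⧸ Ideal.span {(Q : 𝓞 K)}, C * (C' * Q + 1) ^ (n + 1) * (M + M)) :=
    hasSum_sum fun q _ => (((Equiv.addRight (ρ q)).hasSum_iff.2 hM.hasSum).add hM.hasSum).mul_left _
  have k4 : ∀ (x : 𝓞 K), ∀ s ∈ Metric.ball (2 : ℂ) (1 + 1 / (2 * (n : ℝ))),
      ‖∑ q, θ (x + ρ q) * (W A s (x + ρ q) - W A s x)‖ ≤
        ∑ q, C * (C' * Q + 1) ^ (n + 1) * (mk (x + ρ q) + mk x) := by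
    intro x s hs
    refine norm_sum_le_of_le _ fun q _ => ?_
    rw [norm_mul]
    exact (mul_le_of_le_one_left (norm_nonneg _) (h1 _)).trans
      (hC A s x _ _ (hb s hs).1 (hb s hs).2 (by positivity) (hρ' q))
  have c1 : (1 : ℝ) ≤ Nat.card (torsion K) := Nat.one_le_cast.2 Nat.card_pos
  have c2 : 0 < Fintype.card (𝓞 K ⧸ Ideal.span {(Q : 𝓞 K)}) := Fintype.card_pos
  refine ⟨fun s => (∑' x, ∑ q, θ (x + ρ q) * (W A s (x + ρ q) - W A s x)) /
    ((Fintype.card (𝓞 K ⧸ Ideal.span {(Q : 𝓞 K)}) : ℂ) * (Nat.card (torsion K) : ℂ)),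
    DifferentiableOn.div_const (Complex.differentiableOn_tsum_of_summable_norm k3.summable
      (fun x s hs => ?_) Metric.isOpen_ball k4) _, fun s hs => ?_, fun s hs => ?_⟩
  · have := re_pos (hb s hs).1
    exact (DifferentiableAt.fun_sum fun q _ => (differentiableAt_const _).mul
      ((W_diff A _ this).sub (W_diff A _ this))).differentiableWithinAt
  · rw [norm_div, norm_mul, Complex.norm_natCast, Complex.norm_natCast,
      div_le_iff₀ (by positivity)]
    refine (tsum_of_norm_bounded k3 fun x => k4 x s hs).trans ?_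
    rw [Finset.sum_const, Finset.card_univ, nsmul_eq_mul]
    calc _ ≤ (Fintype.card (𝓞 K ⧸ Ideal.span {(Q : 𝓞 K)}) : ℝ) *
          (C * ((C' + 1) * Q) ^ (n + 1) * (M + M)) * Nat.card (torsion K) := by
          refine le_trans ?_ (le_mul_of_one_le_right (by positivity) c1)
          gcongr
          linarith
      _ = _ := by rw [mul_pow]; ring
  · have hs1 : 1 < s.re := by
      rw [Metric.mem_ball, dist_eq_norm] at hs
      have a := Complex.abs_re_le_norm (s - 2)
      simp only [Complex.sub_re, Complex.re_ofNat] at a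
      linarith [neg_le_of_abs_le a]
    have k2 := hasSum_sum (s := Finset.univ) fun q _ =>
      (Equiv.addRight (ρ q)).hasSum_iff.2 (W_sum h1 hp h2 hs1)
    have k5 : ∀ x, ∑ q, θ (x + ρ q) * (W A s (x + ρ q) - W A s x) =
        ∑ q, θ (x + ρ q) * W A s (x + ρ q) := fun x => by
      simp only [mul_sub, Finset.sum_sub_distrib, ← Finset.sum_mul, hz', zero_mul, sub_zero]
    simp only [k5]
    rw [div_eq_iff (by exact_mod_cast (mul_pos c2 Nat.card_pos).ne')]
    refine k2.tsum_eq.trans ?_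
    rw [Finset.sum_const, Finset.card_univ, nsmul_eq_mul]
    ring

end Pool.Agent.MP_1246c0_nt.H25
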