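import Pool.Agent.MP_1246c0_nt.H25.SpecN
import Pool.Agent.MP_1246c0_nt.H34.F1

/-! Cancellation in the character sum over all configurations. -/

namespace Pool.Agent.MP_1246c0_nt.H25

open Finset Filter Topology Pool.Agent.MP_1246c0_nt.H12 Pool.Agent.MP_1246c0_nt.H12.F1

namespace GLB

theorem tg_nonneg (hG : SG0) {X : ℕ} {Sg : Finset ℕ} {m : ℕ} (i1 : Sg) (hS : Sg ∈ Sm X)
    (hm : m ≤ m0 X) (h5 : i1.1 % 8 = 5) {Ψ : (Fin m → ℕ) → ℕ → ℝ} (h : ∀ p P, 0 ≤ Ψ p P) :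
    0 ≤ TG X Sg m Ψ := by
  have h1 := hG.tmul X Sg m 0 Ψ
  rw [zero_mul] at h1
  exact h1.ge.trans (hG.tmono X Sg m i1 _ _ hS hm h5 fun p P _ => by simpa using h p P)

theorem disj {ι : Type} [Fintype ι] [DecidableEq ι] {X : ℕ} (h : Z1 X ≤ Y2 X) (n : ℕ)
    (pr : ι → ℕ) : Disjoint (Ja X n pr) (Jb X n pr) := by
  classical
  rw [disjoint_left]
  intro i h1 h2
  have a : T1 X n (pr i) := by simpa [Ja] using h1
  have b : T2 X n (pr i) := by simpa [Jb] using h2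
  have := a.2.1
  have := b.1
  omega

theorem split {ι : Type} [Fintype ι] [DecidableEq ι] {A B : Finset ι} (h : Disjoint A B) (a : ℝ) :
    ∑ q ∈ (univ : Finset (Finset ι × Finset ι)).filter fun q => Disjoint q.1 q.2,
      ind (A = q.1 ∧ B = q.2) * a = a := by
  rw [sum_eq_single_of_mem (A, B) (mem_filter.2 ⟨mem_univ _, h⟩), ind_pos ⟨rfl, rfl⟩, one_mul]
  intro q _ hq
  rw [ind_neg fun e => hq (Prod.ext e.1.symm e.2.symm), zero_mul]

/-- one pattern -/
theorem one (hG : SG0) (hA : SADM) {ℓ k κ J : ℕ} {μ : Md ℓ} {S : Sy} (hμ : μ.Ok J) {X : ℕ}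
    {Sg : Finset ℕ} {m : ℕ} (i1 : Sg) (hS : Sg ∈ Sm X) (hm : m ≤ m0 X) (h5 : i1.1 % 8 = 5)
    (J1 J2 : Finset (Sg ⊕ Fin m)) (cf : Cof (Sg ⊕ Fin m) ℓ) {C R : ℝ} (hC : 0 ≤ C) (hR : 0 ≤ R)
    (h1 : ∀ p P, Vd X Sg m i1 p P → (J1.card : ℝ) ^ k * J2.card ^ 2 *
      (ind (Gq μ κ J1 J2 (Us S.Φ μ (prs Sg p) P (.inl i1) 1) (Ws S.Φ μ (prs Sg p) P (.inl i1) 2)) *
        cs S.Φ μ (prs Sg p) P (.inl i1) (k + 1)) = C * ∑ e : Option (Fin k) ↪ Sg ⊕ Fin m, ∑ b,
          ind (Pt J1 J2 e b) * fv S.Φ μ P (.inl i1) e b κ cf (prs Sg p))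
    (h2 : ∀ (e : Option (Fin k) ↪ Sg ⊕ Fin m) b, Pt J1 J2 e b →
      TG X Sg m (fun p P => ind (Ja X μ.n (prs Sg p) = J1 ∧ Jb X μ.n (prs Sg p) = J2) *
        fv S.Φ μ P (.inl i1) e b κ cf (prs Sg p)) ≤ R) :
    TG X Sg m (fun p P => ind (Ja X μ.n (prs Sg p) = J1 ∧ Jb X μ.n (prs Sg p) = J2) *
      (ind (Gg S.Φ μ κ X (prs Sg p) P (.inl i1)) * cs S.Φ μ (prs Sg p) P (.inl i1) (k + 1))) ≤
      C * R := by
  set N : ℝ := (J1.card : ℝ) ^ k * J2.card ^ 2 with hN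
  have hN0 : 0 ≤ N := by positivity
  calc _ ≤ TG X Sg m (fun p P => ∑ e : Option (Fin k) ↪ Sg ⊕ Fin m, ∑ b,
        (C / N * ind (Pt J1 J2 e b)) * (ind (Ja X μ.n (prs Sg p) = J1 ∧ Jb X μ.n (prs Sg p) = J2) *
          fv S.Φ μ P (.inl i1) e b κ cf (prs Sg p))) := by
        refine hG.tmono X Sg m i1 _ _ hS hm h5 fun p P hV => le_of_eq ?_
        by_cases hp : Ja X μ.n (prs Sg p) = J1 ∧ Jb X μ.n (prs Sg p) = J2
        · have h3 := h1 p P hV
          rw [ind_pos hp]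
          simp only [one_mul, Gg, hp.1, hp.2, mul_assoc, ← mul_sum]
          rcases hN0.eq_or_lt with h0 | h0
          · rw [← h0, div_zero, zero_mul, ind_neg, zero_mul]
            intro hq
            have a := hq.big
            have b := hq.ne.card_pos
            have c : 0 < 2 * cS ℓ κ * μ.n := by
              have := hμ.le
              have := hμ.two
              exact Nat.mul_pos (by unfold cS; positivity) (by omega)
            have d : 0 < J1.card := c.trans_le a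
            exact absurd h0 (by positivity : 0 < N).ne
          · rw [div_mul_eq_mul_div, ← h3, mul_div_cancel_left₀ _ h0.ne']
        · simp [ind_neg hp]
    _ ≤ ∑ e : Option (Fin k) ↪ Sg ⊕ Fin m, ∑ b, C / N * R * ind (Pt J1 J2 e b) := by
        rw [hG.tsum]
        refine sum_le_sum fun e _ => ?_
        rw [hG.tsum]
        refine sum_le_sum fun b _ => ?_
        rw [hG.tmul]
        by_cases hP : Pt J1 J2 e b
        · rw [ind_pos hP, mul_one, mul_one]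
          exact mul_le_mul_of_nonneg_left (h2 e b hP) (by positivity)
        · simp [ind_neg hP]
    _ ≤ C / N * R * N := by
        simp only [← mul_sum]
        exact mul_le_mul_of_nonneg_left (hA.cnt _ k J1 J2) (by positivity)
    _ ≤ _ := by
        rcases hN0.eq_or_lt with h0 | h0
        · rw [← h0, mul_zero]
          positivity
        · exact le_of_eq (by field_simp)

theorem shell (X : ℕ) {c ε : ℝ} (h1 : 1 ≤ c) (h2 : c ≤ 1 + ε) :
    ({d : ℕ | 1 ≤ d ∧ d ≤ X ∧ (X : ℝ) < c * d}.ncard : ℝ) ≤ ε * X + 1 := by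
  have hc : 0 < c := by linarith
  have hX : (0 : ℝ) ≤ X := Nat.cast_nonneg X
  have a : {d : ℕ | 1 ≤ d ∧ d ≤ X ∧ (X : ℝ) < c * d} ⊆ (Ioc ⌊X / c⌋₊ X : Finset ℕ) := by
    rintro d ⟨-, h3, h4⟩
    rw [mem_coe, mem_Ioc, Nat.floor_lt (by positivity), div_lt_iff₀' hc]
    exact ⟨h4, h3⟩
  have b := Set.ncard_le_ncard a (finite_toSet _)
  rw [Set.ncard_coe_finset, Nat.card_Ioc] at b
  have d : ⌊X / c⌋₊ ≤ X := Nat.floor_le_of_le (div_le_self hX h1)
  have e : ((X - ⌊X / c⌋₊ : ℕ) : ℝ) ≤ X - (X / c - 1) := by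
    rw [Nat.cast_sub d]
    linarith [Nat.lt_floor_add_one (X / c)]
  have f : X - ε * X ≤ X / c := by
    rw [le_div_iff₀ hc]
    rcases le_total ε 1 with g | g
    · nlinarith [mul_nonneg hX (sub_nonneg.2 g), mul_nonneg hX (sq_nonneg ε)]
    · nlinarith [mul_nonneg hX (sub_nonneg.2 g)]
  exact (Nat.cast_le.2 b).trans (by linarith)

theorem num1 {r Z Y W L δ : ℝ} {C C' z : ℕ} (hC : 1 ≤ C) (hC' : 9 * C + 7 ≤ C') (hr : (C' : ℝ) ≤ r)
    (hZ : 1 ≤ Z) (hW : 1 ≤ W) (hY : 0 < Y) (hz : (z : ℝ) ≤ 2 * r ^ 2) (hL0 : 0 ≤ L)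
    (hL : L ≤ Real.exp (2 * r)) (hY' : Real.log Y ≤ r ^ 5 + 1) (hδ : 1 ≤ δ * Y)
    (h : Z ^ C' * Real.exp (C' * r ^ 5) ≤ W ^ (1 / C' : ℝ)) :
    Z ^ C * 2 ^ (C * z) * L ≤ δ * W ^ (1 / C : ℝ) := by
  have c1 : (1 : ℝ) ≤ C := by exact_mod_cast hC
  have c2 : 9 * (C : ℝ) + 7 ≤ C' := by exact_mod_cast hC'
  have r1 : 1 ≤ r := by linarith
  have a1 : (2 : ℝ) ^ (C * z) ≤ Real.exp (2 * C * r ^ 5) := by
    calc _ ≤ Real.exp 1 ^ (C * z) := by
          gcongr
          linarith [Real.add_one_le_exp 1]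
      _ ≤ _ := by
          rw [Real.exp_one_pow, Real.exp_le_exp]
          push_cast
          have : r ^ 2 ≤ r ^ 5 := pow_le_pow_right₀ r1 (by norm_num)
          nlinarith
  have a2 : Y ≤ Real.exp (r ^ 5 + 1) := (Real.log_le_iff_le_exp hY).1 hY'
  have a3 : W ^ (1 / C' : ℝ) ≤ W ^ (1 / C : ℝ) :=
    Real.rpow_le_rpow_of_exponent_le hW (one_div_le_one_div_of_le (by linarith) (by linarith))
  have a4 : r ≤ r ^ 5 := le_self_pow₀ r1 (by norm_num)
  have a5 : Z ^ C * 2 ^ (C * z) * L * Y ≤ W ^ (1 / C : ℝ) := by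
    calc _ ≤ Z ^ C' * Real.exp (2 * C * r ^ 5) * Real.exp (2 * r) * Real.exp (r ^ 5 + 1) := by
          gcongr
          omega
      _ ≤ Z ^ C' * Real.exp (C' * r ^ 5) := by
          rw [mul_assoc, mul_assoc, ← Real.exp_add, ← Real.exp_add]
          gcongr
          nlinarith
      _ ≤ _ := h.trans a3
  have a6 : 0 ≤ Z ^ C * 2 ^ (C * z) * L := by positivity
  have a7 : 0 < δ := pos_of_mul_pos_right (by linarith : 0 < Y * δ) hY.le
  nlinarith

theorem num2 {r L δ B : ℝ} {C C' z : ℕ} (hC : 1 ≤ C) (hC' : 9 * C + 7 ≤ C') (hr : (C' : ℝ) ≤ r)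
    (hz : (z : ℝ) ≤ 2 * r ^ 2) (hL0 : 0 ≤ L) (hL : L ≤ Real.exp (2 * r)) (hB : B ≤ r)
    (hδ0 : 0 ≤ δ) (hδ : δ * Real.exp (C' * r ^ 4) ≤ 1) :
    B * L * (4 ^ z * (δ * (C * L) ^ (C * (z + 1)))) ≤ 1 := by
  have c1 : (1 : ℝ) ≤ C := by exact_mod_cast hC
  have c2 : 9 * (C : ℝ) + 7 ≤ C' := by exact_mod_cast hC'
  have r1 : 1 ≤ r := by linarith
  have r2 : r ≤ Real.exp r := by linarith [Real.add_one_le_exp r]
  have p1 : r ≤ r ^ 4 := le_self_pow₀ r1 (by norm_num)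
  have p2 : r ^ 2 ≤ r ^ 4 := pow_le_pow_right₀ r1 (by norm_num)
  have p3 : r ^ 3 ≤ r ^ 4 := pow_le_pow_right₀ r1 (by norm_num)
  have a1 : (4 : ℝ) ^ z ≤ Real.exp (4 * r ^ 4) := by
    calc _ ≤ Real.exp 2 ^ z := by
          gcongr
          rw [show (2 : ℝ) = 1 + 1 by norm_num, Real.exp_add]
          nlinarith [Real.add_one_le_exp 1]
      _ ≤ _ := by
          rw [← Real.exp_nat_mul, Real.exp_le_exp]
          linarith
  have a2 : (C * L) ^ (C * (z + 1)) ≤ Real.exp (9 * C * r ^ 4) := by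
    calc _ ≤ (Real.exp r * Real.exp (2 * r)) ^ (C * (z + 1)) := by
          gcongr
          linarith
      _ ≤ _ := by
          rw [← Real.exp_add, ← Real.exp_nat_mul, Real.exp_le_exp]
          push_cast
          have : ((z : ℝ) + 1) * (r + 2 * r) ≤ 9 * r ^ 4 := by nlinarith
          nlinarith
  calc _ ≤ Real.exp r * Real.exp (2 * r) * (Real.exp (4 * r ^ 4) *
        (δ * Real.exp (9 * C * r ^ 4))) := by
        gcongr
        linarith
    _ = δ * Real.exp (r + 2 * r + 4 * r ^ 4 + 9 * C * r ^ 4) := by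
        simp only [Real.exp_add]
        ring
    _ ≤ δ * Real.exp (C' * r ^ 4) := by
        gcongr
        nlinarith
    _ ≤ 1 := hδ

end GLB

open GLB in
theorem rowGLB : OfGLB := by
  classical
  intro hD hB hP hG hA hC ℓ k κ J μ S η hS hμ hk hJ hη
  obtain ⟨CA, hCA, hA1⟩ := hA.eq ℓ k κ
  obtain ⟨C0, hB⟩ := hB
  obtain ⟨D⟩ := hD.ex 0
  set K : ℝ := 2 ^ (κ * (k + 1) + ℓ) with hK
  have hK0 : 0 < K := by positivity
  obtain ⟨θ, ⟨hθ2, hθ1⟩, hθ0⟩ : ∃ θ : ℝ, ((1 + θ) ^ (k + 3) ≤ 1 + η / (4 * (CA + 1) * K) ∧ θ ≤ 1) ∧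
      0 < θ := by
    have a : ContinuousAt (fun θ : ℝ => (1 + θ) ^ (k + 3)) 0 := by fun_prop
    have b := a.eventually_le_const (show _ < 1 + η / (4 * (CA + 1) * K) by
      simpa using by positivity)
    exact (((b.and (eventually_le_nhds one_pos)).filter_mono nhdsWithin_le_nhds).and
      (self_mem_nhdsWithin (s := Set.Ioi (0 : ℝ)))).exists
  obtain ⟨C, hC1, hC⟩ := hC ℓ k μ.n κ (η / (4 * (CA + 1))) θ hk (by positivity) hθ0 hθ1
  filter_upwards [hP (C0 + ⌈1 / θ⌉₊ + ⌈12 * CA / η⌉₊ + (9 * C + 7)),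
    tendsto_natCast_atTop_atTop.eventually_ge_atTop (4 * CA * K / η)] with X hX hX0
  set C' := C0 + ⌈1 / θ⌉₊ + ⌈12 * CA / η⌉₊ + (9 * C + 7) with hC'
  obtain ⟨p1, p2, p3, p4, p5, -, -, p6, p7, -, -, -, -, p8, p9, p10⟩ := hX
  have c1 : 9 * C + 7 ≤ C' := by omega
  have r1 : (1 : ℝ) ≤ ll X := le_trans (by exact_mod_cast (by omega : 1 ≤ C')) p1
  obtain ⟨q1, q2, -⟩ := p10 1 le_rfl (by simpa using r1)
  have hL : 0 < Real.log X + 2 := by linarith [Real.log_natCast_nonneg X]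
  have hδ0 : 0 ≤ dl C' 1 (YY X) X := by unfold dl; positivity
  have hY : (0 : ℝ) < YY X := by exact_mod_cast (by omega : 0 < YY X)
  have hbil : Bil (fun p p' (_ : Unit) => lg p p') (Gd 0) (YY X) X (dl C' 1 (YY X) X) := by
    intro s hs u v a b c d T hT
    refine (bil hD D (hB 0 D (YY X) X (by omega)) s hs u v a b c d T hT).trans ?_
    unfold dl
    rw [pow_zero]
    gcongr
    · norm_num
    · omega
  have hθY : 1 ≤ θ * YY X := by
    rw [← div_le_iff₀' hθ0]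
    have a : ((⌈1 / θ⌉₊ : ℕ) : ℝ) ≤ C' := by exact_mod_cast (by omega : ⌈1 / θ⌉₊ ≤ C')
    linarith [Nat.le_ceil (1 / θ), le_self_pow₀ r1 (by norm_num : 5 ≠ 0),
      Real.log_le_sub_one_of_pos hY]
  have hBr : 12 * CA / η ≤ ll X := by
    have a : ((⌈12 * CA / η⌉₊ : ℕ) : ℝ) ≤ C' := by exact_mod_cast (by omega : ⌈12 * CA / η⌉₊ ≤ C')
    linarith [Nat.le_ceil (12 * CA / η)]
  have h1 := hG.cmp X (fun Sg _ i1 p P => ind (Gg S.Φ μ κ X (prs Sg p) P (.inl i1)) *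
      cs S.Φ μ (prs Sg p) P (.inl i1) (k + 1))
    (fun Sg _ _ p P => CA * (η / (4 * (CA + 1))) +
      CA * K * ind ((X : ℝ) < (1 + θ) ^ (k + 3) * dd (prs Sg p) P))
    (η / (12 * (Real.log X + 2))) (by positivity) fun Sg hSg m hm i1 h5 => by
    have hz : ((Sg.card + m : ℕ) : ℝ) ≤ 2 * ll X ^ 2 := by
      have a : (Sg.card : ℝ) ≤ m0 X := by exact_mod_cast (mem_filter.1 hSg).2
      have b : (m : ℝ) ≤ m0 X := by exact_mod_cast hm
      have c : (m0 X : ℝ) ≤ ll X ^ 2 := Nat.floor_le (by positivity)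
      push_cast
      linarith
    have n1 := num1 hC1 c1 p1 (Z := 2 * Z1 X) (W := Y2 X)
      (by exact_mod_cast (by omega : 1 ≤ 2 * Z1 X)) (by exact_mod_cast (by omega : 1 ≤ Y2 X)) hY hz
      hL.le p8 p7 q2 p9
    have n2 := num2 hC1 c1 p1 hz hL.le p8 hBr hδ0 (by simpa using q1)
    set err := dl C' 1 (YY X) X * (C * (Real.log X + 2)) ^ (C * (Sg.card + m + 1)) with herr
    have he0 : 0 ≤ err := by positivity
    set T : ℝ := ((X / ∏ l ∈ Sg, l : ℕ) : ℝ)
    have hT : 0 ≤ T := Nat.cast_nonneg _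
    calc _ = ∑ q ∈ univ.filter fun q : Finset (Sg ⊕ Fin m) × Finset (Sg ⊕ Fin m) =>
          Disjoint q.1 q.2, TG X Sg m (fun p P =>
            ind (Ja X μ.n (prs Sg p) = q.1 ∧ Jb X μ.n (prs Sg p) = q.2) *
              (ind (Gg S.Φ μ κ X (prs Sg p) P (.inl i1)) *
                cs S.Φ μ (prs Sg p) P (.inl i1) (k + 1))) := by
          simp only [← hG.tsum, split (disj p5 _ _)]
      _ ≤ ∑ q ∈ univ.filter fun q : Finset (Sg ⊕ Fin m) × Finset (Sg ⊕ Fin m) =>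
          Disjoint q.1 q.2, (TG X Sg m (fun p P =>
            ind (Ja X μ.n (prs Sg p) = q.1 ∧ Jb X μ.n (prs Sg p) = q.2) *
              (CA * (η / (4 * (CA + 1))) +
                CA * K * ind ((X : ℝ) < (1 + θ) ^ (k + 3) * dd (prs Sg p) P))) +
            CA * (err * T)) := by
          refine sum_le_sum fun q hq => ?_
          obtain ⟨cf, hcf, hE⟩ := hA1 _ μ q.1 q.2 (mem_filter.1 hq).2
          refine (one hG hA hμ i1 hSg hm h5 q.1 q.2 cf hCA ?_
            (fun p P hV => hE S _ P J _ hS hV.lb hμ (by omega) hJ) fun e b hPt =>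
              le_of_abs_le (hC S μ J X Sg m i1 q.1 q.2 e b cf _ hS rfl hμ hJ hcf hSg h5 hPt p3 hθY
                hbil q2 ((Nat.pow_le_pow_right (by omega) (by omega)).trans p4) n1)).trans_eq ?_
          · refine add_nonneg (add_nonneg (mul_nonneg (by positivity) ?_) (mul_nonneg hK0.le ?_))
              (mul_nonneg he0 hT)
            · exact tg_nonneg hG i1 hSg hm h5 fun _ _ => ind_nonneg _
            · exact tg_nonneg hG i1 hSg hm h5 fun _ _ => mul_nonneg (ind_nonneg _) (ind_nonneg _)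
          · rw [mul_add, mul_add, ← hG.tmul, ← hG.tmul, ← hG.tmul, ← hG.tmul, ← hG.tadd]
            congr 2
            funext p P
            ring
      _ ≤ _ := by
          rw [sum_add_distrib, ← hG.tsum, sum_const, nsmul_eq_mul]
          simp only [split (disj p5 _ _)]
          refine add_le_add_right ?_ _
          have a : (((univ.filter fun q : Finset (Sg ⊕ Fin m) × Finset (Sg ⊕ Fin m) =>
              Disjoint q.1 q.2).card : ℕ) : ℝ) ≤ 4 ^ (Sg.card + m) := by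
            have := card_filter_le (univ : Finset (Finset (Sg ⊕ Fin m) × Finset (Sg ⊕ Fin m)))
              fun q => Disjoint q.1 q.2
            rw [card_univ, Fintype.card_prod, Fintype.card_finset, Fintype.card_sum,
              Fintype.card_coe, Fintype.card_fin, ← mul_pow] at this
            exact_mod_cast this
          calc _ ≤ 4 ^ (Sg.card + m) * (CA * (err * T)) := by gcongr
            _ = η / (12 * (Real.log X + 2)) * T *
                (12 * CA / η * (Real.log X + 2) * (4 ^ (Sg.card + m) * err)) := by field_simp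
            _ ≤ _ := mul_le_of_le_one_right (by positivity) n2
  rw [hG.add, hG.mul X (CA * K)] at h1
  have h2 := hG.tot X (CA * (η / (4 * (CA + 1)))) (by positivity)
  have h3 := (hG.up X fun d => (X : ℝ) < (1 + θ) ^ (k + 3) * d).trans
    (shell X (one_le_pow₀ (by linarith)) hθ2)
  have hX1 : (0 : ℝ) ≤ X := Nat.cast_nonneg X
  have h4 : CA * (η / (4 * (CA + 1))) ≤ η / 4 := by
    rw [← mul_div_assoc, div_le_div_iff₀ (by positivity) (by positivity)]
    nlinarith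
  have h5 : CA * K * (η / (4 * (CA + 1) * K) * X + 1) = CA * (η / (4 * (CA + 1))) * X + CA * K := by
    field_simp
  have h6 : 3 * (η / (12 * (Real.log X + 2))) * X * (Real.log X + 2) = η / 4 * X := by
    field_simp
    ring
  rw [div_le_iff₀ hη] at hX0
  have h7 := mul_le_mul_of_nonneg_left h3 (mul_nonneg hCA hK0.le)
  have h8 := mul_le_mul_of_nonneg_right h4 hX1
  linarith

end Pool.Agent.MP_1246c0_nt.H25
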