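import Pool.Agent.MP_1246c0_nt.H25.SpecA

/-! Row REL: the tame relation. -/

namespace Pool.Agent.MP_1246c0_nt.H25

open NumberField Finset Pool.Agent.MP_db5b97_nt.H85 Pool.Agent.MP_1246c0_nt.H12

namespace REL

variable {A G : Type} [CommRing A] [Group G] [MulSemiringAction G A] {w : Ideal A}

theorem pow_mem {g : G} (h : ∀ x ∈ w, g • x ∈ w) (j : ℕ) : ∀ x ∈ w ^ j, g • x ∈ w ^ j := by
  have : (w ^ j).map (MulSemiringAction.toRingHom G A g) ≤ w ^ j := by
    rw [Ideal.map_pow]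
    exact Ideal.pow_right_mono (Ideal.map_le_iff_le_comap.2 h) j
  exact Ideal.map_le_iff_le_comap.1 this

theorem keep {g : G} (h : ∀ x, g • x - x ∈ w) (x : A) : g • x ∈ w ↔ x ∈ w :=
  (Ideal.Quotient.eq_zero_iff_mem.symm.trans (by rw [Ideal.Quotient.eq.2 (h x)])).trans
    Ideal.Quotient.eq_zero_iff_mem

theorem sq_mem {a b : A} (ha : a ∈ w) (hb : b ∈ w) : a * b ∈ w ^ 2 :=
  sq w ▸ Ideal.mul_mem_mul ha hb

theorem raise {t : G} (h1 : ∀ x, t • x - x ∈ w) (h2 : ∀ x ∈ w, t • x - x ∈ w ^ 2) (j : ℕ) :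
    ∀ x ∈ w ^ j, t • x - x ∈ w ^ (j + 1) := by
  induction j with
  | zero => simpa using h1
  | succ j ih =>
    intro x hx
    rw [pow_succ] at hx
    refine Submodule.mul_induction_on hx (fun a ha b hb => ?_) fun a b ha hb => ?_
    · rw [show t • (a * b) - a * b = (t • a - a) * t • b + a * (t • b - b) by
        rw [smul_mul']; ring]
      refine add_mem ?_ ?_
      · rw [pow_succ]
        exact Ideal.mul_mem_mul (ih a ha) ((keep h1 b).2 hb)
      · rw [add_assoc, pow_add]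
        exact Ideal.mul_mem_mul ha (h2 b hb)
    · rw [smul_add, add_sub_add_comm]
      exact add_mem ha hb

theorem triv [IsDomain A] [IsNoetherianRing A] (hw : w.IsMaximal) {t : G} {N : ℕ}
    (h1 : ∀ x, t • x - x ∈ w) (h2 : ∀ x ∈ w, t • x - x ∈ w ^ 2) (hN : t ^ N = 1)
    (h3 : (N : A) ∉ w) (x : A) : t • x = x := by
  have key : ∀ j, t • x - x ∈ w ^ j := fun j => by
    induction j with
    | zero => simp
    | succ j ih =>
      have a1 : ∀ n : ℕ, t ^ n • x - x - n * (t • x - x) ∈ w ^ (j + 1) := fun n => by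
        induction n with
        | zero => simp
        | succ n ih' =>
          have := add_mem (pow_mem (fun y => (keep h1 y).2) _ _ ih')
            (Ideal.mul_mem_left _ (n : A) (raise h1 h2 j _ ih))
          convert this using 1
          simp only [pow_succ', mul_smul, smul_sub, smul_mul', Nat.cast_add, Nat.cast_one,
            show t • (n : A) = n from map_natCast (MulSemiringAction.toRingHom G A t) n]
          ring
      have a2 := a1 N
      rw [hN, one_smul, sub_self, zero_sub, neg_mem_iff] at a2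
      exact (Ideal.IsMaximal.mul_mem_pow w a2).resolve_left h3
  have := Ideal.mem_iInf.2 key
  rwa [Ideal.iInf_pow_eq_bot_of_isDomain _ hw.ne_top, Ideal.mem_bot, sub_eq_zero] at this

theorem tame [IsDedekindDomain A] (hw : w.IsMaximal) (h0 : w ≠ ⊥) {s F : G} {l N : ℕ}
    (hl : l ≠ 0) (hs : ∀ x, s • x - x ∈ w) (hF : ∀ x, F • x - x ^ l ∈ w)
    (hN : (F * s * F⁻¹ * (s ^ l)⁻¹) ^ N = 1) (h3 : (N : A) ∉ w) (x : A) :
    (F * s * F⁻¹ * (s ^ l)⁻¹) • x = x := by
  have f1 : ∀ x, F • x ∈ w ↔ x ∈ w := fun x => by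
    rw [← hw.isPrime.pow_mem_iff_mem l (Nat.pos_of_ne_zero hl) (r := x)]
    exact ⟨fun h => (Submodule.sub_mem_iff_right w h).1 (hF x),
      fun h => (Submodule.sub_mem_iff_left w h).1 (hF x)⟩
  have s1 : ∀ (n : ℕ) (x : A), s ^ n • x - x ∈ w := fun n => by
    induction n with
    | zero => simp
    | succ n ih =>
      intro x
      rw [pow_succ, mul_smul, ← sub_add_sub_cancel _ (s • x)]
      exact add_mem (ih _) (hs x)
  obtain ⟨π, p1, p2⟩ := w.exists_mem_pow_notMem_pow_succ h0 hw.ne_top 1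
  have p3 : ∀ y ∈ w, ∃ a, y - a * π ∈ w ^ 2 := fun y hy => by
    have : Ideal.span {π} ⊔ w ^ (1 + 1) = w ^ 1 := Ideal.eq_prime_pow_of_succ_lt_of_le h0
      (lt_of_le_of_ne le_sup_right fun e => p2 (e ▸ Ideal.mem_sup_left (Ideal.subset_span rfl)))
      (sup_le ((Ideal.span_singleton_le_iff_mem _).2 p1) (Ideal.pow_le_pow_right (by omega)))
    rw [← pow_one w, ← this] at hy
    obtain ⟨a, b, hb, e⟩ := Ideal.mem_span_singleton_sup.1 hy
    exact ⟨a, by rwa [← e, add_sub_cancel_left]⟩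
  rw [pow_one] at p1
  obtain ⟨c, hc⟩ := p3 _ ((keep hs π).2 p1)
  have s2 : ∀ y ∈ w, s • y - c * y ∈ w ^ 2 := fun y hy => by
    obtain ⟨a, ha⟩ := p3 y hy
    have := add_mem (add_mem (sq_mem (hs a) ((keep hs π).2 p1)) (Ideal.mul_mem_left _ a hc))
      (sub_mem (pow_mem (fun y => (keep hs y).2) 2 _ ha) (Ideal.mul_mem_left _ c ha))
    convert this using 1
    rw [smul_sub, smul_mul']
    ring
  have s3 : ∀ n : ℕ, ∀ y ∈ w, s ^ n • y - c ^ n * y ∈ w ^ 2 := fun n => by
    induction n with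
    | zero => simp
    | succ n ih =>
      intro y hy
      have := add_mem (ih _ ((keep hs y).2 hy)) (Ideal.mul_mem_left _ (c ^ n) (s2 y hy))
      convert this using 1
      rw [pow_succ, mul_smul]
      ring
  refine triv hw (fun y => ?_) (fun y hy => ?_) hN h3 x <;>
    obtain ⟨z, rfl⟩ := MulAction.surjective (s ^ l) y <;>
    obtain ⟨v, rfl⟩ := MulAction.surjective F z <;>
    simp only [mul_smul, inv_smul_smul]
  · have := sub_mem ((f1 _).2 (hs v)) (s1 l (F • v))
    rwa [smul_sub, sub_sub_sub_cancel_right] at this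
  · have a1 := (keep (s1 l) _).1 hy
    have := sub_mem (add_mem (pow_mem (fun y => (f1 y).2) 2 _ (s2 v ((f1 v).1 a1)))
      (sq_mem (hF c) a1)) (s3 l _ a1)
    convert this using 1
    rw [smul_sub, smul_mul']
    ring

theorem ext {E : Type} [Field E] [NumberField E] {g : E ≃ₐ[ℚ] E} (H : ∀ x : 𝓞 E, g • x = x) :
    g = 1 := AlgEquiv.ext fun y => by
  obtain ⟨a, b, -, rfl⟩ := IsFractionRing.div_surjective (A := 𝓞 E) y
  rw [map_div₀]
  exact congrArg₂ (· / ·) (congrArg (algebraMap (𝓞 E) E) (H a))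
    (congrArg (algebraMap (𝓞 E) E) (H b))

end REL

theorem rowREL : SREL := by
  intro Φ l U hl ⟨u1, u2, u3⟩
  have e : (IntermediateField.fixedField U).fixingSubgroup = U :=
    InfiniteGalois.fixingSubgroup_fixedField ⟨U, U.isClosed_of_isOpen u2⟩
  generalize IntermediateField.fixedField U = E at e
  subst e
  have : FiniteDimensional ℚ E := (InfiniteGalois.isOpen_iff_finite E).1 u2
  have := (InfiniteGalois.normal_iff_isGalois E).1 u1
  have : IsGalois ℚ E := this
  have : NumberField E := NumberField.of_module_finite ℚ E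
  obtain ⟨q1, q2⟩ := Φ.mx l hl.1
  have r1 : ∀ (h : Ga) (x : 𝓞 E), algebraMap (𝓞 E) OO (AlgEquiv.restrictNormalHom E h • x) =
      h • algebraMap (𝓞 E) OO x := fun h x =>
    RingOfIntegers.ext (AlgEquiv.restrictNormalHom_apply E h x)
  have r2 : ∀ h : Ga, h ∈ E.fixingSubgroup ↔ AlgEquiv.restrictNormalHom E h = 1 := fun h => by
    rw [← IntermediateField.restrictNormalHom_ker, MonoidHom.mem_ker]
    rfl
  have r3 : (l : 𝓞 E) ∈ (Φ.Q l).comap (algebraMap (𝓞 E) OO) := by
    rwa [Ideal.mem_comap, map_natCast]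
  have r4 : (Φ.Q l).comap (algebraMap (𝓞 E) OO) ≠ ⊥ := fun e =>
    Nat.cast_ne_zero.2 hl.1.ne_zero (Ideal.mem_bot.1 (e ▸ r3))
  have r5 := (Ideal.comap_isPrime (algebraMap (𝓞 E) OO) (Φ.Q l)).isMaximal r4
  obtain ⟨k, hk⟩ := u3 (Φ.fr l * Φ.sg l * (Φ.fr l)⁻¹ * (Φ.sg l ^ l)⁻¹)
  rw [r2] at hk ⊢
  simp only [map_mul, map_pow, map_inv] at hk ⊢
  refine REL.ext fun x => ?_
  refine REL.tame r5 r4 hl.1.ne_zero (fun x => ?_) (fun x => ?_) hk (fun h => ?_) x
  · rw [Ideal.mem_comap, map_sub, r1]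
    exact Φ.isg l hl.1 _
  · rw [Ideal.mem_comap, map_sub, r1, map_pow]
    exact Φ.ffr l hl _
  · obtain ⟨a, b, e⟩ := (Nat.isCoprime_iff_coprime.2 (((Nat.coprime_primes Nat.prime_two hl.1).2
      hl.2.1.symm).pow_left k)).map (Int.castRingHom (𝓞 E))
    simp only [map_natCast] at e
    exact r5.ne_top ((Ideal.eq_top_iff_one _).2
      (e ▸ add_mem (Ideal.mul_mem_left _ a h) (Ideal.mul_mem_left _ b r3)))

end Pool.Agent.MP_1246c0_nt.H25
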